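import Pool.Agent.Q153.Dav.Upper

/-!
# The Davenport constant of `C_2^4 ⊕ C_3` is at most `9`, second part
-/

set_option autoImplicit false

namespace Pool.Agent.Q153.Dav

open Finset

section fibres

variable {V : Type*} [AddCommGroup V] [DecidableEq V] {ι : Type*} [DecidableEq ι]

/-- the number of subsets with a given sum -/
def num (K : Finset ι) (b : ι → V) (v : V) : ℕ := (K.powerset.filter fun T => ∑ i ∈ T, b i = v).card

lemma num_add_of_mem (h2 : ∀ v : V, v + v = 0) {K : Finset ι} {b : ι → V} {k : ι} (hk : k ∈ K)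
    (v : V) : num K b (v + b k) = num K b v := by
  have tog : ∀ T : Finset ι, ∑ i ∈ (if k ∈ T then T.erase k else insert k T), b i =
      ∑ i ∈ T, b i + b k := by
    intro T
    split_ifs with h
    · rw [← Finset.add_sum_erase T b h, add_comm (b k), add_assoc, h2, add_zero]
    · rw [Finset.sum_insert h, add_comm]
  have tog2 : ∀ T : Finset ι, (if k ∈ (if k ∈ T then T.erase k else insert k T)
      then (if k ∈ T then T.erase k else insert k T).erase k
      else insert k (if k ∈ T then T.erase k else insert k T)) = T := by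
    intro T
    by_cases h : k ∈ T
    · simp [h]
    · simp [h]
  have sub : ∀ T : Finset ι, T ⊆ K → (if k ∈ T then T.erase k else insert k T) ⊆ K := by
    intro T hT
    split_ifs with h
    · exact (Finset.erase_subset k T).trans hT
    · exact Finset.insert_subset hk hT
  unfold num
  refine Finset.card_nbij' (fun T => if k ∈ T then T.erase k else insert k T)
    (fun T => if k ∈ T then T.erase k else insert k T) ?_ ?_ ?_ ?_
  · intro T hT
    rw [Finset.mem_coe, Finset.mem_filter, Finset.mem_powerset] at hT ⊢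
    refine ⟨sub T hT.1, ?_⟩
    rw [tog, hT.2, add_assoc, h2, add_zero]
  · intro T hT
    rw [Finset.mem_coe, Finset.mem_filter, Finset.mem_powerset] at hT ⊢
    refine ⟨sub T hT.1, ?_⟩
    rw [tog, hT.2]
  · intro T _; exact tog2 T
  · intro T _; exact tog2 T

lemma num_eq (h2 : ∀ v : V, v + v = 0) {K : Finset ι} {b : ι → V}
    (hK : AddSubgroup.closure (b '' (K : Set ι)) = ⊤) (v : V) : num K b v = num K b 0 := by
  have : ∀ x ∈ AddSubgroup.closure (b '' (K : Set ι)), ∀ v, num K b (v + x) = num K b v := by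
    intro x hx
    induction hx using AddSubgroup.closure_induction with
    | mem x hx =>
      obtain ⟨k, hk, rfl⟩ := hx
      exact fun v => num_add_of_mem h2 hk v
    | zero => intro v; rw [add_zero]
    | add x y _ _ ihx ihy => intro v; rw [← add_assoc, ihy, ihx]
    | neg x _ ih =>
      intro v
      rw [← ih (v + -x), neg_add_cancel_right]
  have h := this v (by rw [hK]; exact AddSubgroup.mem_top v) 0
  rwa [zero_add] at h

lemma num_mul_card [Fintype V] (h2 : ∀ v : V, v + v = 0) {K : Finset ι} {b : ι → V}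
    (hK : AddSubgroup.closure (b '' (K : Set ι)) = ⊤) (v : V) :
    Fintype.card V * num K b v = 2 ^ K.card := by
  have h := Finset.card_eq_sum_card_fiberwise (s := K.powerset) (t := (Finset.univ : Finset V))
    (f := fun T => ∑ i ∈ T, b i) (fun _ _ => Finset.mem_coe.2 (Finset.mem_univ _))
  rw [Finset.card_powerset] at h
  rw [h]
  have : ∀ w ∈ (Finset.univ : Finset V),
      (K.powerset.filter fun T => ∑ i ∈ T, b i = w).card = num K b v := by
    intro w _
    change num K b w = _
    rw [num_eq h2 hK w, num_eq h2 hK v]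
  rw [Finset.sum_congr rfl this, Finset.sum_const, Finset.card_univ, smul_eq_mul]

end fibres

section main

variable {V : Type*} [AddCommGroup V] [Module (ZMod 2) V] [Fintype V] [DecidableEq V]
  {ι : Type*} [DecidableEq ι]

omit [Fintype V] [DecidableEq V] in
lemma two_tors (v : V) : v + v = 0 := by
  have : (2 : ZMod 2) • v = 0 := by
    rw [show (2 : ZMod 2) = 0 by decide, zero_smul]
  rwa [two_smul] at this

/-- eight elements in a hyperplane -/
lemma hyper (hV : Fintype.card V = 16) (l : V →ₗ[ZMod 2] ZMod 2) (hl : l ≠ 0) (J : Finset ι)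
    (hJ : 8 ≤ J.card) (b : ι → V) (c : ι → ZMod 3) (hb : ∀ i ∈ J, l (b i) = 0) :
    ∃ T ⊆ J, T.Nonempty ∧ ∑ i ∈ T, b i = 0 ∧ ∑ i ∈ T, c i = 0 := by
  classical
  have hfin : Module.finrank (ZMod 2) V = 4 := by
    have h := Module.card_eq_pow_finrank (K := ZMod 2) (V := V)
    rw [hV, ZMod.card] at h
    have : (2 : ℕ) ^ 4 = 2 ^ Module.finrank (ZMod 2) V := by rw [← h]; norm_num
    exact (Nat.pow_right_injective le_rfl this).symm
  have hrank : Module.finrank (ZMod 2) (LinearMap.ker l) = 3 := by
    have h := LinearMap.finrank_range_add_finrank_ker l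
    have h2 : LinearMap.range l = ⊤ := LinearMap.range_eq_top.2 (LinearMap.surjective hl)
    rw [h2, finrank_top, Module.finrank_self, hfin] at h
    omega
  have hcard : Fintype.card (LinearMap.ker l) = 8 := by
    rw [Module.card_eq_pow_finrank (K := ZMod 2), ZMod.card, hrank]; norm_num
  let b' : ι → LinearMap.ker l := fun i => if h : l (b i) = 0 then ⟨b i, h⟩ else 0
  have hb' : ∀ i ∈ J, (b' i : V) = b i := by
    intro i hi
    simp only [b', dif_pos (hb i hi)]
  obtain ⟨T, hT, hne, h1, h2⟩ := eight hcard (fun w => two_tors w) J hJ b' c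
  refine ⟨T, hT, hne, ?_, h2⟩
  have h3 := congrArg (Subtype.val) h1
  rw [AddSubmonoidClass.coe_finsetSum] at h3
  rw [← Finset.sum_congr rfl fun i hi => hb' i (hT hi)]
  exact h3

variable (hV : Fintype.card V = 16) {J : Finset ι} (hJ : J.card = 9) {b : ι → V} {c : ι → ZMod 3}
  (hS : ∀ T ⊆ J, T.Nonempty → ∑ i ∈ T, b i = 0 → ∑ i ∈ T, c i ≠ 0)

include hV hJ hS

lemma c_ne {i : ι} (hi : i ∈ J) : c i ≠ 0 := by
  classical
  intro hc
  have hbi : b i ≠ 0 := by
    intro h0
    exact hS {i} (Finset.singleton_subset_iff.2 hi) (Finset.singleton_nonempty i)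
      (by rw [Finset.sum_singleton, h0]) (by rw [Finset.sum_singleton, hc])
  obtain ⟨l, hl⟩ : ∃ l : V →ₗ[ZMod 2] ZMod 2, l (b i) ≠ 0 := by
    by_contra hcon
    push Not at hcon
    exact hbi ((Module.forall_dual_apply_eq_zero_iff (ZMod 2) (b i)).1 hcon)
  have hl1 : l (b i) = 1 := by
    generalize l (b i) = x at hl ⊢
    revert x; decide
  have hlne : l ≠ 0 := by
    rintro rfl
    exact hl rfl
  let b' : ι → V := fun k => if l (b k) = 0 then b k else b k + b i
  obtain ⟨T, hT, hne, h1, h2⟩ := hyper hV l hlne (J.erase i)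
    (by rw [Finset.card_erase_of_mem hi, hJ]) b' c (by
      intro k _
      simp only [b']
      split_ifs with h
      · exact h
      · rw [map_add, hl1]
        generalize l (b k) = x at h ⊢
        revert x; decide)
  have hsum : ∀ T : Finset ι, ∑ k ∈ T, b' k = ∑ k ∈ T, b k ∨
      ∑ k ∈ T, b' k = ∑ k ∈ T, b k + b i := by
    intro T
    induction T using Finset.induction_on with
    | empty => left; simp
    | insert k T hk ih =>
      rw [Finset.sum_insert hk, Finset.sum_insert hk]
      have : b' k = b k ∨ b' k = b k + b i := by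
        simp only [b']; split_ifs <;> simp
      rcases this with h | h <;> rcases ih with h' | h' <;> rw [h, h']
      · left; rfl
      · right; rw [add_assoc]
      · right; abel
      · left
        have : b k + b i + (∑ x ∈ T, b x + b i) = b k + ∑ x ∈ T, b x + (b i + b i) := by abel
        rw [this, two_tors, add_zero]
  have hiT : i ∉ T := fun h => by simpa using hT h
  have hTJ : T ⊆ J := hT.trans (Finset.erase_subset i J)
  rcases hsum T with h | h
  · rw [h] at h1
    exact hS T hTJ hne h1 h2
  · rw [h] at h1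
    refine hS (insert i T) (Finset.insert_subset hi hTJ) (Finset.insert_nonempty i T) ?_ ?_
    · rw [Finset.sum_insert hiT, add_comm]; exact h1
    · rw [Finset.sum_insert hiT, hc, h2, add_zero]

lemma closure_eq_top {i j : ι} (hi : i ∈ J) (hj : j ∈ J) (hij : i ≠ j) :
    AddSubgroup.closure (b '' (((J.erase i).erase j : Finset ι) : Set ι)) = ⊤ := by
  classical
  by_contra hcon
  let U : Submodule (ZMod 2) V := Submodule.span (ZMod 2)
    (b '' (((J.erase i).erase j : Finset ι) : Set ι))
  have hU : U < ⊤ := by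
    rw [lt_top_iff_ne_top]
    intro h
    apply hcon
    rw [eq_top_iff]
    intro v _
    have hv : v ∈ U := by rw [h]; exact Submodule.mem_top
    -- the span is the additive closure
    refine Submodule.span_induction ?_ ?_ ?_ ?_ hv
    · intro x hx; exact AddSubgroup.subset_closure hx
    · exact AddSubgroup.zero_mem _
    · intro x y _ _ hx hy; exact AddSubgroup.add_mem _ hx hy
    · intro a x _ hx
      have : a = 0 ∨ a = 1 := by revert a; decide
      rcases this with rfl | rfl
      · rw [zero_smul]; exact AddSubgroup.zero_mem _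
      · rw [one_smul]; exact hx
  obtain ⟨l, hlne, hlU⟩ := Submodule.exists_le_ker_of_lt_top U hU
  have hl0 : ∀ k ∈ J, k ≠ i → k ≠ j → l (b k) = 0 := by
    intro k hk hki hkj
    have : b k ∈ U := Submodule.subset_span ⟨k, by
      simp only [Finset.coe_erase, Set.mem_sdiff, Set.mem_singleton_iff]
      exact ⟨⟨hk, hki⟩, hkj⟩, rfl⟩
    exact hlU this
  have zc : ∀ x : ZMod 2, x = 0 ∨ x = 1 := by decide
  have fin : ∀ {T : Finset ι}, T ⊆ J → T.Nonempty → ∑ i ∈ T, b i = 0 → ∑ i ∈ T, c i = 0 → False :=
    fun h1 h2 h3 h4 => hS _ h1 h2 h3 h4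
  rcases zc (l (b i)) with hbi | hbi
  · obtain ⟨T, hT, hne, h1, h2⟩ := hyper hV l hlne (J.erase j)
      (by rw [Finset.card_erase_of_mem hj, hJ]) b c (by
        intro k hk
        rw [Finset.mem_erase] at hk
        by_cases hki : k = i
        · rw [hki]; exact hbi
        · exact hl0 k hk.2 hki hk.1)
    exact fin (hT.trans (Finset.erase_subset j J)) hne h1 h2
  rcases zc (l (b j)) with hbj | hbj
  · obtain ⟨T, hT, hne, h1, h2⟩ := hyper hV l hlne (J.erase i)
      (by rw [Finset.card_erase_of_mem hi, hJ]) b c (by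
        intro k hk
        rw [Finset.mem_erase] at hk
        by_cases hkj : k = j
        · rw [hkj]; exact hbj
        · exact hl0 k hk.2 hk.1 hkj)
    exact fin (hT.trans (Finset.erase_subset i J)) hne h1 h2
  · -- merge `i` and `j`
    obtain ⟨T, hT, hne, h1, h2⟩ := hyper hV l hlne (J.erase j)
      (by rw [Finset.card_erase_of_mem hj, hJ]) (fun k => if k = i then b i + b j else b k)
      (fun k => if k = i then c i + c j else c k) (by
        intro k hk
        rw [Finset.mem_erase] at hk
        by_cases hki : k = i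
        · rw [if_pos hki, map_add, hbi, hbj]; decide
        · rw [if_neg hki]; exact hl0 k hk.2 hki hk.1)
    have hTJ : T ⊆ J := hT.trans (Finset.erase_subset j J)
    have hjT : j ∉ T := fun h => by simpa using hT h
    by_cases hiT : i ∈ T
    · have hs : ∀ {M : Type} [AddCommMonoid M] (g : ι → M),
          ∑ k ∈ T, (if k = i then g i + g j else g k) = ∑ k ∈ insert j T, g k := by
        intro M _ g
        rw [Finset.sum_insert hjT, ← Finset.add_sum_erase T _ hiT, ← Finset.add_sum_erase T g hiT,
          if_pos rfl]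
        have : ∑ k ∈ T.erase i, (if k = i then g i + g j else g k) = ∑ k ∈ T.erase i, g k :=
          Finset.sum_congr rfl fun k hk => by rw [if_neg (Finset.ne_of_mem_erase hk)]
        rw [this]
        abel
      have hs' : ∑ k ∈ T, (if k = i then b i + b j else b k) = ∑ k ∈ insert j T, b k := by
        rw [Finset.sum_insert hjT, ← Finset.add_sum_erase T _ hiT, ← Finset.add_sum_erase T b hiT,
          if_pos rfl]
        have : ∑ k ∈ T.erase i, (if k = i then b i + b j else b k) = ∑ k ∈ T.erase i, b k :=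
          Finset.sum_congr rfl fun k hk => by rw [if_neg (Finset.ne_of_mem_erase hk)]
        rw [this]
        abel
      rw [hs'] at h1
      rw [hs] at h2
      exact fin (Finset.insert_subset hj hTJ) (Finset.insert_nonempty j T) h1 h2
    · have e1 : ∑ k ∈ T, (if k = i then b i + b j else b k) = ∑ k ∈ T, b k :=
        Finset.sum_congr rfl fun k hk => by rw [if_neg]; rintro rfl; exact hiT hk
      have e2 : ∑ k ∈ T, (if k = i then c i + c j else c k) = ∑ k ∈ T, c k :=
        Finset.sum_congr rfl fun k hk => by rw [if_neg]; rintro rfl; exact hiT hk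
      rw [e1] at h1
      rw [e2] at h2
      exact fin hTJ hne h1 h2

lemma num_pair {i j : ι} (hi : i ∈ J) (hj : j ∈ J) (hij : i ≠ j) (v : V) :
    num ((J.erase i).erase j) b v = 8 := by
  have h := num_mul_card (K := (J.erase i).erase j) (two_tors (V := V))
    (closure_eq_top hV hJ hS hi hj hij) v
  rw [Finset.card_erase_of_mem (Finset.mem_erase.2 ⟨hij.symm, hj⟩), Finset.card_erase_of_mem hi,
    hJ, hV] at h
  norm_num at h
  omega

omit [Module (ZMod 2) V] [Fintype V] [DecidableEq V] hV hS in
lemma exists_other {i : ι} (hi : i ∈ J) : ∃ j ∈ J, i ≠ j := by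
  have : 0 < (J.erase i).card := by rw [Finset.card_erase_of_mem hi, hJ]; norm_num
  obtain ⟨j, hj⟩ := Finset.card_pos.1 this
  rw [Finset.mem_erase] at hj
  exact ⟨j, hj.2, hj.1.symm⟩

lemma closure_one {i : ι} (hi : i ∈ J) :
    AddSubgroup.closure (b '' ((J.erase i : Finset ι) : Set ι)) = ⊤ := by
  obtain ⟨j, hj, hij⟩ := exists_other hJ hi
  rw [eq_top_iff, ← closure_eq_top hV hJ hS hi hj hij]
  exact AddSubgroup.closure_mono (Set.image_mono (by
    exact_mod_cast Finset.erase_subset j (J.erase i)))

lemma num_single {i : ι} (hi : i ∈ J) (v : V) : num (J.erase i) b v = 16 := by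
  have h := num_mul_card (K := J.erase i) (two_tors (V := V)) (closure_one hV hJ hS hi) v
  rw [Finset.card_erase_of_mem hi, hJ, hV] at h
  norm_num at h
  omega

lemma num_all (v : V) : num J b v = 32 := by
  obtain ⟨i, hi⟩ : J.Nonempty := Finset.card_pos.1 (by omega)
  have hcl : AddSubgroup.closure (b '' (J : Set ι)) = ⊤ := by
    rw [eq_top_iff, ← closure_one hV hJ hS hi]
    exact AddSubgroup.closure_mono (Set.image_mono (by exact_mod_cast Finset.erase_subset i J))
  have h := num_mul_card (K := J) (two_tors (V := V)) hcl v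
  rw [hJ, hV] at h
  norm_num at h
  omega

/-- the zero-sum subsets containing `i` and `j` -/
lemma card_pair_mem {i j : ι} (hi : i ∈ J) (hj : j ∈ J) (hij : i ≠ j) :
    ((J.powerset.filter fun T => ∑ k ∈ T, b k = 0).filter fun T => i ∈ T ∧ j ∈ T).card = 8 := by
  rw [← num_pair hV hJ hS hi hj hij (b i + b j)]
  unfold num
  refine Finset.card_nbij' (fun T => (T.erase i).erase j) (fun T => insert i (insert j T))
    ?_ ?_ ?_ ?_
  · intro T hT
    rw [Finset.mem_coe, Finset.mem_filter, Finset.mem_filter, Finset.mem_powerset] at hT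
    rw [Finset.mem_coe, Finset.mem_filter, Finset.mem_powerset]
    obtain ⟨⟨h1, h2⟩, h3, h4⟩ := hT
    refine ⟨Finset.erase_subset_erase _ (Finset.erase_subset_erase _ h1), ?_⟩
    rw [← Finset.add_sum_erase T b h3,
      ← Finset.add_sum_erase (T.erase i) b (Finset.mem_erase.2 ⟨hij.symm, h4⟩), ← add_assoc] at h2
    exact ((add_eq_zero_iff_eq' (two_tors (V := V)) _ _).1 h2).symm
  · intro T hT
    rw [Finset.mem_coe, Finset.mem_filter, Finset.mem_powerset] at hT
    rw [Finset.mem_coe, Finset.mem_filter, Finset.mem_filter, Finset.mem_powerset]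
    obtain ⟨h1, h2⟩ := hT
    have hjT : j ∉ T := fun h => by simpa using h1 h
    have hiT : i ∉ T := fun h => by simpa using h1 h
    have hiT' : i ∉ insert j T := by
      rw [Finset.mem_insert, not_or]; exact ⟨hij, hiT⟩
    refine ⟨⟨?_, ?_⟩, by simp, by simp⟩
    · refine Finset.insert_subset hi (Finset.insert_subset hj ?_)
      exact h1.trans ((Finset.erase_subset _ _).trans (Finset.erase_subset _ _))
    · rw [Finset.sum_insert hiT', Finset.sum_insert hjT, h2, ← add_assoc, two_tors]
  · intro T hT
    rw [Finset.mem_coe, Finset.mem_filter, Finset.mem_filter, Finset.mem_powerset] at hT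
    obtain ⟨⟨h1, h2⟩, h3, h4⟩ := hT
    simp only
    rw [Finset.insert_erase (Finset.mem_erase.2 ⟨hij.symm, h4⟩), Finset.insert_erase h3]
  · intro T hT
    rw [Finset.mem_coe, Finset.mem_filter, Finset.mem_powerset] at hT
    obtain ⟨h1, h2⟩ := hT
    have hjT : j ∉ T := fun h => by simpa using h1 h
    have hiT : i ∉ T := fun h => by simpa using h1 h
    have hiT' : i ∉ insert j T := by
      rw [Finset.mem_insert, not_or]; exact ⟨hij, hiT⟩
    simp only
    rw [Finset.erase_insert hiT', Finset.erase_insert hjT]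

lemma card_single_mem {i : ι} (hi : i ∈ J) :
    ((J.powerset.filter fun T => ∑ k ∈ T, b k = 0).filter fun T => i ∈ T).card = 16 := by
  rw [← num_single hV hJ hS hi (b i)]
  unfold num
  refine Finset.card_nbij' (fun T => T.erase i) (fun T => insert i T) ?_ ?_ ?_ ?_
  · intro T hT
    rw [Finset.mem_coe, Finset.mem_filter, Finset.mem_filter, Finset.mem_powerset] at hT
    rw [Finset.mem_coe, Finset.mem_filter, Finset.mem_powerset]
    obtain ⟨⟨h1, h2⟩, h3⟩ := hT
    refine ⟨Finset.erase_subset_erase _ h1, ?_⟩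
    rw [← Finset.add_sum_erase T b h3] at h2
    exact ((add_eq_zero_iff_eq' (two_tors (V := V)) _ _).1 h2).symm
  · intro T hT
    rw [Finset.mem_coe, Finset.mem_filter, Finset.mem_powerset] at hT
    rw [Finset.mem_coe, Finset.mem_filter, Finset.mem_filter, Finset.mem_powerset]
    obtain ⟨h1, h2⟩ := hT
    have hiT : i ∉ T := fun h => by simpa using h1 h
    refine ⟨⟨?_, ?_⟩, by simp⟩
    · exact Finset.insert_subset hi (h1.trans (Finset.erase_subset _ _))
    · rw [Finset.sum_insert hiT, h2, two_tors]
  · intro T hT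
    rw [Finset.mem_coe, Finset.mem_filter, Finset.mem_filter, Finset.mem_powerset] at hT
    exact Finset.insert_erase hT.2
  · intro T hT
    rw [Finset.mem_coe, Finset.mem_filter, Finset.mem_powerset] at hT
    exact Finset.erase_insert (fun h => by simpa using hT.1 h)

theorem no_nine : False := by
  classical
  set C := J.powerset.filter fun T => ∑ k ∈ T, b k = 0 with hC
  have hCcard : C.card = 32 := num_all hV hJ hS 0
  have sq : ∀ x : ZMod 3, x ≠ 0 → x * x = 1 := by decide
  -- the sum of the squares, first evaluation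
  have e1 : ∑ T ∈ C, (∑ i ∈ T, c i) * (∑ i ∈ T, c i) = 1 := by
    have h0 : (∅ : Finset ι) ∈ C := by rw [hC, Finset.mem_filter]; simp
    rw [← Finset.add_sum_erase C _ h0, Finset.sum_empty, mul_zero, zero_add]
    have hone : ∀ T ∈ C.erase ∅, (∑ i ∈ T, c i) * (∑ i ∈ T, c i) = 1 := by
      intro T hT
      rw [Finset.mem_erase, hC, Finset.mem_filter, Finset.mem_powerset] at hT
      exact sq _ (hS T hT.2.1 (Finset.nonempty_iff_ne_empty.2 hT.1) hT.2.2)
    rw [Finset.sum_congr rfl hone, Finset.sum_const, Finset.card_erase_of_mem h0, hCcard]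
    decide
  -- second evaluation
  have e2 : ∑ T ∈ C, (∑ i ∈ T, c i) * (∑ i ∈ T, c i) =
      ∑ i ∈ J, ∑ j ∈ J, c i * c j * ((C.filter fun T => i ∈ T ∧ j ∈ T).card : ZMod 3) := by
    have step : ∀ T ∈ C, (∑ i ∈ T, c i) * (∑ i ∈ T, c i) =
        ∑ i ∈ J, ∑ j ∈ J, if i ∈ T ∧ j ∈ T then c i * c j else 0 := by
      intro T hT
      have hTJ : T ⊆ J := by
        rw [hC, Finset.mem_filter, Finset.mem_powerset] at hT; exact hT.1
      have : ∑ i ∈ T, c i = ∑ i ∈ J, if i ∈ T then c i else 0 := by
        rw [← Finset.sum_filter, Finset.filter_mem_eq_inter, Finset.inter_eq_right.2 hTJ]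
      rw [this, Finset.sum_mul_sum]
      refine Finset.sum_congr rfl fun i _ => Finset.sum_congr rfl fun j _ => ?_
      by_cases h1 : i ∈ T <;> by_cases h2 : j ∈ T <;> simp [h1, h2]
    rw [Finset.sum_congr rfl step, Finset.sum_comm]
    refine Finset.sum_congr rfl fun i _ => ?_
    rw [Finset.sum_comm]
    refine Finset.sum_congr rfl fun j _ => ?_
    rw [← Finset.sum_filter, Finset.sum_const, nsmul_eq_mul, mul_comm]
  have e3 : ∀ i ∈ J, ∀ j ∈ J,
      c i * c j * ((C.filter fun T => i ∈ T ∧ j ∈ T).card : ZMod 3) =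
        2 * (c i * c j) + if i = j then 2 * (c i * c j) else 0 := by
    intro i hi j hj
    by_cases hij : i = j
    · subst hij
      rw [if_pos rfl]
      have : (C.filter fun T => i ∈ T ∧ i ∈ T).card = 16 := by
        rw [← card_single_mem hV hJ hS hi]
        congr 1
        exact Finset.filter_congr fun T _ => by simp
      rw [this]
      have h3 : ((16 : ℕ) : ZMod 3) = 2 + 2 := by decide
      rw [h3]; ring
    · rw [if_neg hij, card_pair_mem hV hJ hS hi hj hij]
      have h3 : ((8 : ℕ) : ZMod 3) = 2 := by decide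
      rw [h3]; ring
  rw [e1] at e2
  rw [Finset.sum_congr rfl fun i hi => Finset.sum_congr rfl fun j hj => e3 i hi j hj] at e2
  have e4 : ∑ i ∈ J, ∑ j ∈ J, (2 * (c i * c j) + if i = j then 2 * (c i * c j) else 0) =
      2 * ((∑ i ∈ J, c i) * ∑ i ∈ J, c i) := by
    rw [Finset.sum_congr rfl fun i _ => Finset.sum_add_distrib, Finset.sum_add_distrib]
    have h1 : ∑ i ∈ J, ∑ j ∈ J, 2 * (c i * c j) = 2 * ((∑ i ∈ J, c i) * ∑ i ∈ J, c i) := by
      rw [Finset.sum_mul_sum, Finset.mul_sum]
      exact Finset.sum_congr rfl fun i _ => by rw [Finset.mul_sum]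
    have h2 : ∑ i ∈ J, ∑ j ∈ J, (if i = j then 2 * (c i * c j) else 0) = 0 := by
      have : ∀ i ∈ J, ∑ j ∈ J, (if i = j then 2 * (c i * c j) else 0) = 2 := by
        intro i hi
        rw [Finset.sum_ite_eq J i, if_pos hi, sq _ (c_ne hV hJ hS hi), mul_one]
      rw [Finset.sum_congr rfl this, Finset.sum_const, hJ]
      decide
    rw [h1, h2, add_zero]
  rw [e4] at e2
  generalize ∑ i ∈ J, c i = x at e2
  revert x; decide

end main

/-- **`D(C_2^4 ⊕ C_3) ≤ 9`.** -/
theorem nine {V : Type*} [AddCommGroup V] [Module (ZMod 2) V] [Fintype V] [DecidableEq V]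
    {ι : Type*} [DecidableEq ι] (hV : Fintype.card V = 16) (J : Finset ι) (hJ : J.card = 9)
    (b : ι → V) (c : ι → ZMod 3) :
    ∃ T ⊆ J, T.Nonempty ∧ ∑ i ∈ T, b i = 0 ∧ ∑ i ∈ T, c i = 0 := by
  by_contra hcon
  push Not at hcon
  exact no_nine hV hJ hcon

end Pool.Agent.Q153.Dav
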