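import Mathlib

/-!
# The Davenport constant of `C_2^4 ⊕ C_3` is at most `9`

Sequences over `V ⊕ ZMod 3`, where `V` is an elementary abelian `2`-group, are given by families
`b i : V`, `c i : ZMod 3`.
-/

set_option autoImplicit false

namespace Pool.Agent.Q153.Dav

open Finset

lemma zmod3_cases (x : ZMod 3) : x = 0 ∨ x = 1 ∨ x = 2 := by
  revert x; decide

section eight

variable {W : Type*} [AddCommGroup W] [Fintype W] [DecidableEq W]

omit [Fintype W] [DecidableEq W] in
lemma add_eq_zero_iff_eq' (h2 : ∀ w : W, w + w = 0) (x y : W) : x + y = 0 ↔ x = y := by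
  have hy : -y = y := add_eq_zero_iff_neg_eq.1 (h2 y)
  rw [add_eq_zero_iff_eq_neg, hy]

/-- six distinct nonzero elements of an elementary abelian group of order `8` -/
lemma six (hW : Fintype.card W = 8) (h2 : ∀ w : W, w + w = 0) (B : Finset W) (hB : B.card = 6)
    (h0 : 0 ∉ B) (c : W → ZMod 3) (t : ZMod 3)
    (h : ∀ T ⊆ B, T.Nonempty → ∑ v ∈ T, v = 0 → ∑ v ∈ T, c v = t) : t = 0 := by
  classical
  -- the missing point
  obtain ⟨p, hp⟩ : ∃ p, (insert 0 B)ᶜ = {p} := by
    rw [← Finset.card_eq_one, Finset.card_compl, Finset.card_insert_of_notMem h0, hB, hW]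
  have hmem : ∀ w, w ≠ 0 → w ≠ p → w ∈ B := by
    intro w hw hwp
    by_contra hcon
    have : w ∈ (insert 0 B)ᶜ := by
      rw [Finset.mem_compl, Finset.mem_insert, not_or]; exact ⟨hw, hcon⟩
    rw [hp, Finset.mem_singleton] at this
    exact hwp this
  have hsum : ∀ x y : W, x + y = 0 ↔ x = y := add_eq_zero_iff_eq' h2
  have hadd : ∀ x y z : W, x + y = z ↔ y = x + z := by
    intro x y z
    constructor
    · rintro rfl
      rw [← add_assoc, h2, zero_add]
    · rintro rfl
      rw [← add_assoc, h2, zero_add]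
  -- two lines through a point
  have key : ∀ a ∈ B, ∃ y, y ∈ B ∧ a + y ∈ B ∧ a ≠ y ∧ a ≠ a + y ∧ y ≠ a + y ∧
      c a + c y + c (a + y) = t ∧ 2 * c a = t := by
    intro a ha
    have ha0 : a ≠ 0 := by rintro rfl; exact h0 ha
    have line : ∀ y, y ≠ 0 → y ≠ a → y ≠ p → y ≠ a + p → y ∈ B ∧ a + y ∈ B ∧ a ≠ y ∧
        a ≠ a + y ∧ y ≠ a + y ∧ c a + c y + c (a + y) = t := by
      intro y h1 h3 h4 h5
      have e1 : y ∈ B := hmem y h1 h4
      have e2 : a + y ∈ B := hmem _ (fun h => h3 ((hsum a y).1 h).symm)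
        (fun h => h5 ((hadd a y p).1 h))
      have e3 : a ≠ y := h3.symm
      have e4 : a ≠ a + y := fun h => h1 (by simpa using h.symm)
      have e5 : y ≠ a + y := fun h => ha0 (by simpa using h.symm)
      refine ⟨e1, e2, e3, e4, e5, ?_⟩
      have m1 : a ∉ ({y, a + y} : Finset W) := by
        rw [Finset.mem_insert, Finset.mem_singleton, not_or]; exact ⟨e3, e4⟩
      have := h {a, y, a + y} (by
        intro x hx
        simp only [Finset.mem_insert, Finset.mem_singleton] at hx
        rcases hx with rfl | rfl | rfl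
        · exact ha
        · exact e1
        · exact e2) ⟨a, by simp⟩ (by
          rw [Finset.sum_insert m1, Finset.sum_pair e5]
          rw [← add_assoc a y, h2])
      rw [Finset.sum_insert m1, Finset.sum_pair e5, ← add_assoc] at this
      exact this
    have hex : ∀ F : Finset W, F.card ≤ 6 → ∃ y, y ∉ F := by
      intro F hF
      by_contra hcon
      push Not at hcon
      have : F = Finset.univ := Finset.eq_univ_iff_forall.2 hcon
      rw [this, Finset.card_univ, hW] at hF
      omega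
    obtain ⟨y, hy⟩ := hex {0, a, p, a + p} (Finset.card_le_four.trans (by norm_num))
    simp only [Finset.mem_insert, Finset.mem_singleton, not_or] at hy
    obtain ⟨y1, hy1⟩ := hex {0, a, p, a + p, y, a + y} Finset.card_le_six
    simp only [Finset.mem_insert, Finset.mem_singleton, not_or] at hy1
    obtain ⟨b1, b2, b3, b4, b5, b6⟩ := line y hy.1 hy.2.1 hy.2.2.1 hy.2.2.2
    obtain ⟨d1, d2, d3, d4, d5, d6⟩ := line y1 hy1.1 hy1.2.1 hy1.2.2.1 hy1.2.2.2.1
    refine ⟨y, b1, b2, b3, b4, b5, b6, ?_⟩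
    have g1 : y ≠ y1 := fun h => hy1.2.2.2.2.1 h.symm
    have g2 : y ≠ a + y1 := fun h => hy1.2.2.2.2.2 ((hadd a y1 y).1 h.symm)
    have g3 : a + y ≠ y1 := fun h => hy1.2.2.2.2.2 h.symm
    have g4 : a + y ≠ a + y1 := fun h => g1 (by simpa using h)
    have m1 : y ∉ ({a + y, y1, a + y1} : Finset W) := by
      simp only [Finset.mem_insert, Finset.mem_singleton, not_or]; exact ⟨b5, g1, g2⟩
    have m2 : a + y ∉ ({y1, a + y1} : Finset W) := by
      simp only [Finset.mem_insert, Finset.mem_singleton, not_or]; exact ⟨g3, g4⟩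
    have := h {y, a + y, y1, a + y1} (by
      intro x hx
      simp only [Finset.mem_insert, Finset.mem_singleton] at hx
      rcases hx with rfl | rfl | rfl | rfl
      · exact b1
      · exact b2
      · exact d1
      · exact d2) ⟨y, by simp⟩ (by
        rw [Finset.sum_insert m1, Finset.sum_insert m2, Finset.sum_pair d5]
        have : y + (a + y + (y1 + (a + y1))) = (a + a) + (y + y) + (y1 + y1) := by abel
        rw [this, h2 a, h2 y, h2 y1, add_zero, add_zero])
    rw [Finset.sum_insert m1, Finset.sum_insert m2, Finset.sum_pair d5] at this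
    linear_combination b6 + d6 - this
  obtain ⟨a, ha⟩ : B.Nonempty := Finset.card_pos.1 (by omega)
  obtain ⟨y, h1, h3, -, -, -, h4, h5⟩ := key a ha
  obtain ⟨_, -, -, -, -, -, -, h6⟩ := key y h1
  obtain ⟨_, -, -, -, -, -, -, h7⟩ := key _ h3
  have h8 : 2 * t = 3 * t := by linear_combination -2 * h4 + h5 + h6 + h7
  linear_combination -h8

variable {ι : Type*} [DecidableEq ι]

omit [DecidableEq W] in
/-- many elements contain a zero-sum -/
lemma exists_zero_sum (h2 : ∀ w : W, w + w = 0) (K : Finset ι) (hK : Fintype.card W < 2 ^ K.card)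
    (b : ι → W) : ∃ T ⊆ K, T.Nonempty ∧ ∑ i ∈ T, b i = 0 := by
  obtain ⟨T1, hT1, T2, hT2, hne, heq⟩ := Finset.exists_ne_map_eq_of_card_lt_of_maps_to
    (s := K.powerset) (t := (Finset.univ : Finset W)) (by rw [Finset.card_powerset]; exact hK)
    (f := fun T => ∑ i ∈ T, b i) (fun _ _ => Finset.mem_univ _)
  rw [Finset.mem_powerset] at hT1 hT2
  refine ⟨(T1 \ T2) ∪ (T2 \ T1), ?_, ?_, ?_⟩
  · intro x hx
    rw [Finset.mem_union, Finset.mem_sdiff, Finset.mem_sdiff] at hx
    rcases hx with hx | hx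
    · exact hT1 hx.1
    · exact hT2 hx.1
  · rw [Finset.nonempty_iff_ne_empty]
    intro h
    rw [Finset.union_eq_empty, Finset.sdiff_eq_empty_iff_subset,
      Finset.sdiff_eq_empty_iff_subset] at h
    exact hne (Finset.Subset.antisymm h.1 h.2)
  · rw [Finset.sum_union (by
      rw [Finset.disjoint_left]
      intro x hx hx2
      rw [Finset.mem_sdiff] at hx hx2
      exact hx.2 hx2.1)]
    have e1 := Finset.sum_sdiff_sub_sum_sdiff (s₁ := T1) (s₂ := T2) (f := b)
    rw [heq, sub_self, sub_eq_zero] at e1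
    rw [e1, h2]

/-- six elements whose nonempty zero-sum subfamilies have the same second sum -/
lemma six_family (hW : Fintype.card W = 8) (h2 : ∀ w : W, w + w = 0) (J : Finset ι)
    (hJ : 6 ≤ J.card) (b : ι → W) (c : ι → ZMod 3) (t : ZMod 3)
    (h : ∀ T ⊆ J, T.Nonempty → ∑ i ∈ T, b i = 0 → ∑ i ∈ T, c i = t) : t = 0 := by
  classical
  -- two disjoint zero-sums
  have hdisj : ∀ T1 ⊆ J, T1.Nonempty → ∑ i ∈ T1, b i = 0 →
      Fintype.card W < 2 ^ (J \ T1).card → t = 0 := by
    intro T1 hT1 hne h1 hcard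
    obtain ⟨T2, hT2, hne2, h3⟩ := exists_zero_sum h2 (J \ T1) hcard b
    have hd : Disjoint T1 T2 := by
      rw [Finset.disjoint_left]
      intro x hx hx2
      have := hT2 hx2
      rw [Finset.mem_sdiff] at this
      exact this.2 hx
    have hsub : T2 ⊆ J := hT2.trans Finset.sdiff_subset
    have e1 := h T1 hT1 hne h1
    have e2 := h T2 hsub hne2 h3
    have e3 := h (T1 ∪ T2) (Finset.union_subset hT1 hsub) (hne.mono Finset.subset_union_left)
      (by rw [Finset.sum_union hd, h1, h3, add_zero])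
    rw [Finset.sum_union hd, e1, e2] at e3
    linear_combination e3
  by_cases hz : ∃ i ∈ J, b i = 0
  · obtain ⟨i, hi, hbi⟩ := hz
    refine hdisj {i} (Finset.singleton_subset_iff.2 hi) (Finset.singleton_nonempty i)
      (by rw [Finset.sum_singleton, hbi]) ?_
    rw [hW, Finset.card_sdiff_of_subset (Finset.singleton_subset_iff.2 hi),
      Finset.card_singleton]
    calc 8 < 2 ^ 5 := by norm_num
      _ ≤ 2 ^ (J.card - 1) := Nat.pow_le_pow_right (by norm_num) (by omega)
  by_cases hinj : ∃ i ∈ J, ∃ j ∈ J, i ≠ j ∧ b i = b j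
  · obtain ⟨i, hi, j, hj, hij, hb⟩ := hinj
    have hsub : ({i, j} : Finset ι) ⊆ J := by
      intro x hx
      simp only [Finset.mem_insert, Finset.mem_singleton] at hx
      rcases hx with rfl | rfl
      · exact hi
      · exact hj
    refine hdisj {i, j} hsub ⟨i, by simp⟩ (by rw [Finset.sum_pair hij, hb, h2]) ?_
    rw [hW, Finset.card_sdiff_of_subset hsub, Finset.card_pair hij]
    calc 8 < 2 ^ 4 := by norm_num
      _ ≤ 2 ^ (J.card - 2) := Nat.pow_le_pow_right (by norm_num) (by omega)
  push Not at hz hinj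
  obtain ⟨J', hJ', hcard⟩ := Finset.exists_subset_card_eq hJ
  have hinj' : Set.InjOn b J' := by
    intro i hi j hj hb
    by_contra hij
    exact hinj i (hJ' hi) j (hJ' hj) hij hb
  obtain ⟨i0, hi0⟩ : J'.Nonempty := Finset.card_pos.1 (by omega)
  have : Nonempty ι := ⟨i0⟩
  have : ∃ g : W → ι, ∀ i ∈ J', g (b i) = i :=
    ⟨Function.invFunOn b J', fun i hi => hinj'.leftInvOn_invFunOn hi⟩
  obtain ⟨g, hg⟩ := this
  refine six hW h2 (J'.image b) (by rw [Finset.card_image_of_injOn hinj', hcard]) ?_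
    (fun w => c (g w)) t ?_
  · intro h0
    rw [Finset.mem_image] at h0
    obtain ⟨i, hi, hb⟩ := h0
    exact hz i (hJ' hi) hb
  · intro T hT hne hsum
    obtain ⟨T', hT', rfl⟩ := Finset.subset_image_iff.1 hT
    have hinjT : Set.InjOn b T' := hinj'.mono (by exact_mod_cast hT')
    rw [Finset.sum_image hinjT] at hsum ⊢
    have hT'' : T' ⊆ J' := by exact_mod_cast hT'
    rw [← h T' (hT''.trans hJ') (Finset.image_nonempty.1 hne) hsum]
    exact Finset.sum_congr rfl fun i hi => by rw [hg i (hT'' hi)]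

/-- **`D(C_2^3 ⊕ C_3) ≤ 8`.** -/
lemma eight (hW : Fintype.card W = 8) (h2 : ∀ w : W, w + w = 0) (J : Finset ι)
    (hJ : 8 ≤ J.card) (b : ι → W) (c : ι → ZMod 3) :
    ∃ T ⊆ J, T.Nonempty ∧ ∑ i ∈ T, b i = 0 ∧ ∑ i ∈ T, c i = 0 := by
  classical
  by_contra hcon
  push Not at hcon
  -- a zero-sum `T1` of `b` determines the value of `c` on the disjoint ones
  have key : ∀ T1 ⊆ J, T1.Nonempty → ∑ i ∈ T1, b i = 0 → 6 ≤ (J \ T1).card → False := by
    intro T1 hT1 hne h1 hcard
    have h3 := hcon T1 hT1 hne h1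
    apply h3
    refine six_family hW h2 (J \ T1) hcard b c _ ?_
    intro T hT hTne hT0
    have hsub : T ⊆ J := hT.trans Finset.sdiff_subset
    have hd : Disjoint T1 T := by
      rw [Finset.disjoint_left]
      intro x hx hx2
      have := hT hx2
      rw [Finset.mem_sdiff] at this
      exact this.2 hx
    have h4 := hcon T hsub hTne hT0
    have h5 := hcon (T1 ∪ T) (Finset.union_subset hT1 hsub) (hne.mono Finset.subset_union_left)
      (by rw [Finset.sum_union hd, h1, hT0, add_zero])
    rw [Finset.sum_union hd] at h5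
    generalize ∑ i ∈ T1, c i = x at h3 h5 ⊢
    generalize ∑ i ∈ T, c i = y at h4 h5 ⊢
    revert x y; decide
  by_cases hz : ∃ i ∈ J, b i = 0
  · obtain ⟨i, hi, hbi⟩ := hz
    refine key {i} (Finset.singleton_subset_iff.2 hi) (Finset.singleton_nonempty i)
      (by rw [Finset.sum_singleton, hbi]) ?_
    rw [Finset.card_sdiff_of_subset (Finset.singleton_subset_iff.2 hi), Finset.card_singleton]
    omega
  push Not at hz
  obtain ⟨i, hi, j, hj, hij, hb⟩ := Finset.exists_ne_map_eq_of_card_lt_of_maps_to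
    (s := J) (t := (Finset.univ : Finset W).erase 0)
    (by rw [Finset.card_erase_of_mem (Finset.mem_univ _), Finset.card_univ, hW]; omega)
    (f := b) (fun i hi => by
      rw [Finset.coe_erase, Finset.coe_univ]
      exact ⟨Set.mem_univ _, hz i hi⟩)
  have hsub : ({i, j} : Finset ι) ⊆ J := by
    intro x hx
    simp only [Finset.mem_insert, Finset.mem_singleton] at hx
    rcases hx with rfl | rfl
    · exact hi
    · exact hj
  refine key {i, j} hsub ⟨i, by simp⟩ (by rw [Finset.sum_pair hij, hb, h2]) ?_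
  rw [Finset.card_sdiff_of_subset hsub, Finset.card_pair hij]
  omega

end eight

end Pool.Agent.Q153.Dav
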